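import Pool.Agent.H72.PNF.S2
import Pool.Agent.H44.T1.LSQ

/-!
# PNF, row L2CN: twists by squares at the completions above `2`
-/

set_option autoImplicit false

namespace Pool.PNF

open Polynomial Matrix NumberField IsDedekindDomain Pool.HYP Pool.TOW Pool.AVS Pool.T1 Pool.NF
  Pool.PRK

/-- The converse of `LS2`: the twist by a square. -/
theorem L2CNaux.ls2c {R : Type} [CommRing R] {K : Type} [Field K] [Algebra R K] {L : Type}
    [Field L] (ι : K →+* L) (d : R) (f : R[X]) (α : K[X]) (z : L) (hf : f.Monic)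
    (hn : f.natDegree = 3) (hz : z ≠ 0) (hzd : z ^ 2 = ι (algebraMap R K d))
    (h : LocSol ((fk K f).map ι) (α.map ι)) : LSDK ι d f α := by
  obtain ⟨u, w, s, hu, hc, hd, hs⟩ := h
  obtain ⟨δ, hδ⟩ : ∃ δ : L, δ = z ^ 2 := ⟨_, rfl⟩
  have hδ0 : δ ≠ 0 := by rw [hδ]; exact pow_ne_zero _ hz
  have hfm : (fk K f).Monic := hf.map _
  have hFm : ((fk K f).map ι).Monic := hfm.map _
  have hFn : ((fk K f).map ι).natDegree = 3 := by
    rw [hfm.natDegree_map, fk, hf.natDegree_map, hn]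
  have hfK : (fk K (f.scaleRoots d)).map ι = ((fk K f).map ι).scaleRoots δ := by
    have h1 : fk K (f.scaleRoots d) = (fk K f).scaleRoots (algebraMap R K d) := by
      refine map_scaleRoots f d _ ?_
      rw [hf.leadingCoeff, map_one]
      exact one_ne_zero
    rw [h1, hδ, hzd]
    refine map_scaleRoots (fk K f) _ _ ?_
    rw [hfm.leadingCoeff, map_one]
    exact one_ne_zero
  obtain ⟨F, hF⟩ : ∃ F : L[X], F = (fk K f).map ι := ⟨_, rfl⟩
  rw [← hF] at hc hd hs hFm hFn hfK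
  have hcu : (u.scaleRoots δ).comp (C δ * X) = C (δ ^ u.natDegree) * u := H33.comp_scale u δ
  refine ⟨u.scaleRoots δ, C (z ^ 3) * w.comp (C δ⁻¹ * X), C (z ^ u.natDegree) * s,
    (monic_scaleRoots_iff δ).2 hu, ?_, ?_, ?_⟩
  · rw [hfK, ← LSQ44.coprime_scale F _ δ hδ0, hcu]
    refine (isCoprime_mul_unit_left_left ?_ _ _).2 hc
    exact isUnit_C.2 (isUnit_iff_ne_zero.2 (pow_ne_zero _ hδ0))
  · rw [hfK, ← H33.dvd_scale u _ δ hδ0, sub_comp, H33.comp_scale, pow_comp, mul_comp, C_comp,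
      LSQ44.comp_inv w δ hδ0, hFn]
    have e : (C (z ^ 3) * w) ^ 2 - C (δ ^ 3) * F = C (δ ^ 3) * (w ^ 2 - F) := by
      have e1 : (C (z ^ 3) : L[X]) ^ 2 = C (δ ^ 3) := by
        rw [← C_pow, hδ]
        congr 1
        ring
      rw [mul_pow, e1]
      ring
    rw [e]
    exact hd.mul_left _
  · rw [← hzd, ← hδ, hcu, ← hF]
    have e0 : (C (δ ^ u.natDegree) * u).natDegree = u.natDegree :=
      natDegree_C_mul (pow_ne_zero _ hδ0)
    have e1 : (C (δ ^ u.natDegree) : L[X]) = C (z ^ u.natDegree) ^ 2 := by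
      rw [← C_pow, hδ]
      congr 1
      ring
    unfold Pool.HYP.kap
    rw [e0, e1]
    have e2 : (-1) ^ u.natDegree * (C (z ^ u.natDegree) ^ 2 * u) -
        α.map ι * (C (z ^ u.natDegree) * s) ^ 2 =
        C (z ^ u.natDegree) ^ 2 * ((-1) ^ u.natDegree * u - α.map ι * s ^ 2) := by
      ring
    rw [e2]
    exact hs.mul_left _

/-- **L2CN.** -/
theorem l2cn (hSQD : SQDStmt) : L2CNStmt := by
  intro K _ _ f d e α hf hn hde hL L _ O' ι hC h2
  obtain ⟨z, hz, hz2⟩ := hSQD K L O' ι hC h2 e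
  exact L2CNaux.ls2c ι d f α z hf hn hz (by rw [hz2, hde]) (hL L O' ι hC h2)

end Pool.PNF
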