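import Pool.Agent.H72.PNF.S2
import Pool.Agent.H14.NF.RR1
import Pool.Agent.H44.T1.LSQ
import Pool.Agent.H86.HYP.ONE

/-!
# PNF, row SLN: the real places

At a real place a polynomial of the family, and every twist of it, has one real root, which is
simple.  So modulo it `ℝ[x]` is `ℝ × ℂ`, where the elements of square norm are squares: the condition
`LocSol` is satisfied with `u = 1`.
-/

set_option autoImplicit false

namespace Pool.PNF

open Polynomial Matrix NumberField IsDedekindDomain Pool.HYP Pool.TOW Pool.AVS Pool.T1 Pool.NF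
  Pool.PRK

namespace SLNaux

/-- Modulo a polynomial of degree two without real roots everything is a square. -/
theorem sq_mod {q : ℝ[X]} (hq : q.Monic) (hn : q.natDegree = 2) (hr : ∀ x : ℝ, q.eval x ≠ 0)
    (p : ℝ[X]) : ∃ t : ℝ[X], q ∣ p - t ^ 2 := by
  have hirr : Irreducible q := by
    rw [irreducible_iff_roots_eq_zero_of_degree_le_three (by omega) (by omega)]
    refine Multiset.eq_zero_of_forall_notMem fun x hx => hr x ?_
    exact (mem_roots hq.ne_zero).1 hx
  have hd : (q.map (algebraMap ℝ ℂ)).degree ≠ 0 := by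
    rw [degree_map, degree_eq_natDegree hq.ne_zero, hn]
    norm_num
  obtain ⟨z, hz⟩ := IsAlgClosed.exists_root (q.map (algebraMap ℝ ℂ)) hd
  have hz' : aeval z q = 0 := by
    rw [IsRoot.def, eval_map_algebraMap] at hz
    exact hz
  have him : z.im ≠ 0 := by
    intro h0
    have h1 : z = algebraMap ℝ ℂ z.re := by
      apply Complex.ext
      · simp
      · simp [h0]
    rw [h1, aeval_algebraMap_apply] at hz'
    have h2 : aeval z.re q = 0 := (algebraMap ℝ ℂ).injective (by rw [hz', map_zero])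
    exact hr z.re (by rwa [coe_aeval_eq_eval] at h2)
  have hmin : q = minpoly ℝ z := minpoly.eq_of_irreducible_of_monic hirr hz' hq
  obtain ⟨c, hc⟩ := IsAlgClosed.exists_pow_nat_eq (aeval z p) (n := 2) (by norm_num)
  refine ⟨C (c.re - c.im / z.im * z.re) + C (c.im / z.im) * X, ?_⟩
  rw [hmin]
  apply minpoly.dvd
  have h3 : aeval z (C (c.re - c.im / z.im * z.re) + C (c.im / z.im) * X : ℝ[X]) = c := by
    rw [map_add, map_mul, aeval_C, aeval_C, aeval_X]
    apply Complex.ext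
    · simp
    · simp [him]
  rw [map_sub, map_pow, h3, hc, sub_self]

/-- The inverse of a square is a square. -/
theorem inv_sq {q p t : ℝ[X]} (hc : IsCoprime p q) (ht : q ∣ p - t ^ 2) :
    ∃ s : ℝ[X], q ∣ 1 - p * s ^ 2 := by
  obtain ⟨v, w, hvw⟩ := hc
  obtain ⟨k, hk⟩ := ht
  refine ⟨t * v, w * (1 + p * v) + p * v ^ 2 * k, ?_⟩
  have h1 : t ^ 2 = p - q * k := by rw [← hk]; ring
  have h2 : w * q = 1 - v * p := by rw [← hvw]; ring
  calc 1 - p * (t * v) ^ 2 = 1 - p * v ^ 2 * t ^ 2 := by ring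
    _ = (1 - v * p) * (1 + p * v) + q * (p * v ^ 2 * k) := by rw [h1]; ring
    _ = q * (w * (1 + p * v) + p * v ^ 2 * k) := by rw [← h2]; ring

/-- One simple real root. -/
theorem split {G : ℝ[X]} (hG : G.Monic) (hn : G.natDegree = 3) {ρ : ℝ} (hρ : G.eval ρ = 0)
    (hu : ∀ x : ℝ, G.eval x = 0 → x = ρ) (hd : (derivative G).eval ρ ≠ 0) :
    ∃ q : ℝ[X], q.Monic ∧ q.natDegree = 2 ∧ (∀ x : ℝ, q.eval x ≠ 0) ∧ G = (X - C ρ) * q := by
  obtain ⟨q, hq⟩ := dvd_iff_isRoot.2 hρ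
  have hqm : q.Monic := by
    rw [hq] at hG
    exact (monic_X_sub_C ρ).of_mul_monic_left hG
  have hqn : q.natDegree = 2 := by
    have h1 := (monic_X_sub_C ρ).natDegree_mul hqm
    rw [← hq, hn, natDegree_X_sub_C] at h1
    omega
  refine ⟨q, hqm, hqn, fun x hx => ?_, hq⟩
  have h1 : G.eval x = 0 := by rw [hq, eval_mul, hx, mul_zero]
  have h2 := hu x h1
  subst h2
  apply hd
  rw [hq, derivative_mul, derivative_sub, derivative_X, derivative_C, sub_zero, one_mul, eval_add,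
    eval_mul, eval_sub, eval_X, eval_C, sub_self, zero_mul, add_zero, hx]

/-- The real places. -/
theorem real_loc {G p : ℝ[X]} (hG : G.Monic) (hn : G.natDegree = 3) {ρ : ℝ}
    (hρ : G.eval ρ = 0) (hu : ∀ x : ℝ, G.eval x = 0 → x = ρ) (hd : (derivative G).eval ρ ≠ 0)
    (hc : IsCoprime p G) (hN : NSq G p) : ∃ s : ℝ[X], G ∣ 1 - p * s ^ 2 := by
  obtain ⟨q, hqm, hqn, hqr, hq⟩ := split hG hn hρ hu hd
  obtain ⟨t, ht⟩ := sq_mod hqm hqn hqr p
  rw [hq] at hc hN ⊢
  have hc1 : IsCoprime p (X - C ρ) := hc.of_mul_right_left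
  have hc2 : IsCoprime p q := hc.of_mul_right_right
  obtain ⟨s₂, hs₂⟩ := inv_sq hc2 ht
  -- the value at the real root is a square
  have hsq : ∃ r : ℝ, p.eval ρ * r ^ 2 = 1 := by
    obtain ⟨r, hr⟩ := hN
    rw [nmu.1 ℝ _ _ _ (monic_X_sub_C ρ) hqm, nmu.2.1] at hr
    have h1 : AdjoinRoot.mk q p = AdjoinRoot.mk q t ^ 2 := by
      rw [← map_pow, AdjoinRoot.mk_eq_mk]
      exact ht
    rw [h1, map_pow] at hr
    have h2 : Algebra.norm ℝ (AdjoinRoot.mk q t) ≠ 0 := by
      obtain ⟨a, b, hab⟩ := hc2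
      have h3 := congrArg (AdjoinRoot.mk q) hab
      rw [map_add, map_mul, map_mul, AdjoinRoot.mk_self, mul_zero, add_zero, map_one] at h3
      have h4 := congrArg (Algebra.norm ℝ) h3
      rw [map_mul, map_one, h1, map_pow] at h4
      intro h0
      rw [h0] at h4
      norm_num at h4
    have h3 : p.eval ρ ≠ 0 := by
      obtain ⟨a, b, hab⟩ := hc1
      have h4 := congrArg (eval ρ) hab
      rw [eval_add, eval_mul, eval_mul, eval_sub, eval_X, eval_C, sub_self, mul_zero, add_zero,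
        eval_one] at h4
      intro h0
      rw [h0, mul_zero] at h4
      exact zero_ne_one h4
    have h5 : r ≠ 0 := by
      intro h0
      rw [h0, mul_zero] at hr
      exact (mul_ne_zero h3 (pow_ne_zero 2 h2)) hr
    refine ⟨Algebra.norm ℝ (AdjoinRoot.mk q t) / r, ?_⟩
    rw [div_pow, mul_div_assoc', hr, ← pow_two, div_self (pow_ne_zero 2 h5)]
  obtain ⟨r, hr⟩ := hsq
  have hs₁ : (X - C ρ) ∣ 1 - p * (C r) ^ 2 := by
    rw [dvd_iff_isRoot, IsRoot.def, eval_sub, eval_one, eval_mul, eval_pow, eval_C, hr, sub_self]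
  -- the two factors are coprime
  have hcop : IsCoprime (X - C ρ) q := by
    rw [(irreducible_X_sub_C ρ).coprime_iff_not_dvd, dvd_iff_isRoot]
    exact hqr ρ
  obtain ⟨a, b, hab⟩ := id hcop
  refine ⟨C r * (b * q) + s₂ * (a * (X - C ρ)), IsCoprime.mul_dvd hcop ?_ ?_⟩
  · have h1 : 1 - p * (C r * (b * q) + s₂ * (a * (X - C ρ))) ^ 2 =
        (1 - p * (C r) ^ 2) + (X - C ρ) * (-(p * (s₂ - C r) * a *
          (2 * C r + (s₂ - C r) * (a * (X - C ρ))))) := by
      have h2 : b * q = 1 - a * (X - C ρ) := by rw [← hab]; ring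
      rw [h2]
      ring
    rw [h1]
    exact dvd_add hs₁ (dvd_mul_right _ _)
  · have h1 : 1 - p * (C r * (b * q) + s₂ * (a * (X - C ρ))) ^ 2 =
        (1 - p * s₂ ^ 2) + q * (-(p * (C r - s₂) * b *
          (2 * s₂ + (C r - s₂) * (b * q)))) := by
      have h2 : a * (X - C ρ) = 1 - b * q := by rw [← hab]; ring
      rw [h2]
      ring
    rw [h1]
    exact dvd_add hs₂ (dvd_mul_right _ _)

/-- The derivative at the real root. -/
theorem der_pos {a b c Y x : ℝ} (hY : 0 < Y) (ha : |a| ≤ Y / 100) (hb : |b| ≤ Y ^ 2 / 100)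
    (hc : |c + Y ^ 3| ≤ Y ^ 3 / 100) (hx : x ^ 3 + a * x ^ 2 + b * x + c = 0) :
    3 * x ^ 2 + 2 * a * x + b ≠ 0 := by
  have h1 := RR1.root_ge hY ha hb hc hx
  obtain ⟨ha1, ha2⟩ := abs_le.1 ha
  obtain ⟨hb1, hb2⟩ := abs_le.1 hb
  have hx0 : 0 < x := by linarith
  have h2 : -(Y / 100) * x ≤ a * x := mul_le_mul_of_nonneg_right ha1 hx0.le
  have h3 : Y * x ≤ 2 * x ^ 2 := by nlinarith
  have h4 : Y ^ 2 ≤ 4 * x ^ 2 := by nlinarith
  have h5 : 0 < x ^ 2 := by positivity
  nlinarith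

end SLNaux

/-- **SLN.** -/
theorem sln : SLNStmt := by
  intro K _ _ D Y _ hY f hf d hd
  obtain ⟨hfm, hfn, hnear, -, -⟩ := hf
  ext ξ
  constructor
  · rintro ⟨u, p, h1, h2, h3, h4, -⟩
    exact ⟨u, p, h1, h2, h3, h4⟩
  · rintro ⟨u, p, h1, h2, h3, h4⟩
    refine ⟨u, p, h1, h2, h3, h4, fun σ => ?_⟩
    have hcop : IsCoprime p (fk K (f.scaleRoots d)) :=
      H33.coprime_of_unit (by rw [h2]; exact u.isUnit)
    have hFm : (fk K (f.scaleRoots d)).Monic := ((monic_scaleRoots_iff d).2 hfm).map _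
    have hcop' := One86.cop_map σ hcop
    have hN' := One86.nsq_map σ hFm h3
    obtain ⟨δ, hδ⟩ : ∃ δ : ℝ, δ = σ (algebraMap (𝓞 K) K d) := ⟨_, rfl⟩
    have hδ0 : δ ≠ 0 := by
      rw [hδ]
      intro h0
      have h5 : algebraMap (𝓞 K) K d = 0 := σ.injective (by rw [h0, map_zero])
      exact hd ((map_eq_zero_iff _ (IsFractionRing.injective (𝓞 K) K)).1 h5)
    have hfm' : (fk K f).Monic := hfm.map _
    have hfK : (fk K (f.scaleRoots d)).map σ = ((fk K f).map σ).scaleRoots δ := by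
      have e1 : fk K (f.scaleRoots d) = (fk K f).scaleRoots (algebraMap (𝓞 K) K d) := by
        refine map_scaleRoots f d _ ?_
        rw [hfm.leadingCoeff, map_one]
        exact one_ne_zero
      rw [e1, hδ]
      refine map_scaleRoots (fk K f) _ _ ?_
      rw [hfm'.leadingCoeff, map_one]
      exact one_ne_zero
    rw [hfK] at hcop' hN' ⊢
    obtain ⟨G, hG⟩ : ∃ G : ℝ[X], G = (fk K f).map σ := ⟨_, rfl⟩
    have hGm : G.Monic := by rw [hG]; exact hfm'.map _
    have hGn : G.natDegree = 3 := by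
      rw [hG, hfm'.natDegree_map, fk, hfm.natDegree_map, hfn]
    obtain ⟨ρ, hρ, hun⟩ := rr1 hY hfm hfn hnear σ
    -- the root is simple
    have hY0 : (0 : ℝ) < Y := by
      have : (1 : ℝ) ≤ Y := by exact_mod_cast hY
      linarith
    obtain ⟨n1, n2, n3⟩ := hnear
    have key : ∀ (a : 𝓞 K) (B : ℝ), a ∈ Bx K B → |σ (a : K)| ≤ B := by
      intro a B ha
      have h4 := ha (Complex.ofRealHom.comp σ)
      rw [RingHom.comp_apply] at h4
      rwa [Complex.ofRealHom_eq_coe, Complex.norm_real, Real.norm_eq_abs] at h4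
    have ha := key _ _ n1
    have hb := key _ _ n2
    have hc := key _ _ n3
    have hc' : |σ ((f.coeff 0 : 𝓞 K) : K) + (Y : ℝ) ^ 3| ≤ (Y : ℝ) ^ 3 / 100 := by
      have h5 : σ (((f.coeff 0 + (Y : 𝓞 K) ^ 3 : 𝓞 K)) : K) =
          σ ((f.coeff 0 : 𝓞 K) : K) + (Y : ℝ) ^ 3 := by
        push_cast
        rw [map_add, map_pow, map_natCast]
      rwa [h5] at hc
    have hexp : G = X ^ 3 + C (σ ((f.coeff 2 : 𝓞 K) : K)) * X ^ 2 +
        C (σ ((f.coeff 1 : 𝓞 K) : K)) * X + C (σ ((f.coeff 0 : 𝓞 K) : K)) := by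
      have h5 : G.coeff 3 = 1 := by
        rw [← hGn]
        exact hGm
      conv_lhs => rw [G.as_sum_range_C_mul_X_pow, hGn]
      simp only [Finset.sum_range_succ, Finset.sum_range_zero]
      rw [h5, hG]
      simp only [coeff_map]
      rw [C_1]
      ring
    rw [← hG] at hρ hun
    have hx : ρ ^ 3 + σ ((f.coeff 2 : 𝓞 K) : K) * ρ ^ 2 + σ ((f.coeff 1 : 𝓞 K) : K) * ρ +
        σ ((f.coeff 0 : 𝓞 K) : K) = 0 := by
      have h5 : G.eval ρ = 0 := hρ
      rw [hexp] at h5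
      simpa using h5
    have hder : (derivative G).eval ρ ≠ 0 := by
      have h6 := SLNaux.der_pos hY0 ha hb hc' hx
      have h7 : (derivative G).eval ρ = 3 * ρ ^ 2 + 2 * σ ((f.coeff 2 : 𝓞 K) : K) * ρ +
          σ ((f.coeff 1 : 𝓞 K) : K) := by
        rw [hexp]
        simp
        ring
      rw [h7]
      exact h6
    rw [← hG] at hcop' hN'
    obtain ⟨s, hs⟩ := SLNaux.real_loc (p := (p.map σ).comp (C δ * X)) hGm hGn hρ
      (fun x hx => hun x hx) hder ((LSQ44.coprime_scale G _ δ hδ0).2 hcop') (by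
        unfold NSq
        rw [H33.norm_scale G _ δ hδ0]
        exact hN')
    refine ⟨1, 0, s.comp (C δ⁻¹ * X), monic_one, isCoprime_one_left, one_dvd _, ?_⟩
    rw [← hG, ← H33.dvd_scale G _ δ hδ0, natDegree_one, pow_zero, one_mul, sub_comp, one_comp,
      mul_comp, pow_comp, LSQ44.comp_inv s δ hδ0]
    exact hs

end Pool.PNF
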